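import Pool.Agent.H75.ERG.Main

/-!
# MP_009700_an, Q1 for all polygons: invariant sets of polygonal billiards

All definitions used in the statement are in `Pool/Agent/H93/BL/Stmt.lean`.

Outline of the proof.  Let `F` be a bounded function on the product of the table `Ω` and the circle
of directions which is invariant under the billiard flow.  It is shown that all Fourier
coefficients of `F` with respect to the direction are constant on `Ω`.
* A priori inequality.  Let `G` be a real function, smooth in the position, zero near the
  vertices, with `G(x, R_j w) = G(x, w)` on the side `j` (`R_j` the reflection in `j`).  Write the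
  gradient as `w (g + i h)`, so `g` is the derivative along the direction `w`, and let `u_k` be the
  Fourier coefficients of `G`.  On the side `j` the number `u_k` times the `k`-th power of the
  direction of `j` is real, so the integral of the Jacobian of `u_k` is zero, and
  `∫ |∂ u_k|² = ∫ |∂' u_k|²` for the two Wirtinger derivatives. These are the squares of the
  norms of the coefficients of index `k + 1` of `g - i h` and of index `k - 1` of `g + i h`, up to
  the factor 4.  The difference of the squares of the norms of the coefficients of index `j` of
  `g + i h` and of `g - i h` is `4 Re ∫ (conj g_j) i h_j`.  Summing over `j = m, m + 2, ..` gives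
  `∫ |∇ u_k|² ≤ 4 ‖g‖ ‖h‖` for all `k`.
* Cost functions. For `0 < a ≤ L` let `m(x, w)` be the infimum of the costs of the chains of small
  displacements of the state `(x, w)`, where a displacement `s w + e` costs `|s| / L + Λ |e| / a`
  and stopping at `x` costs the distance of `x` to the vertices divided by `a`.  The set `m < λ`
  has measure at most `C λ² a L`, because the flow preserves the volume.
* Let `G` be `F` times a cutoff function of `m` with `K` dyadic layers, mollified at the scale
  `c a`.  Then `‖g‖² ≤ C a / (K L)` and `‖h‖² ≤ C ω(a) / a² + C L / (K a)` with `ω(a)` tending to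
  zero, since `F` is square integrable.  With `L = η / (4^K a)` and `a` tending to zero, `‖g‖ ‖h‖`
  is at most `C / K` in the limit.
* So `F(x, w) = f(w)` almost everywhere, and `f` is invariant under the reflections in the sides.
  Finally `F` is chosen as the indicator function of the states whose orbits visit the invariant
  set `X` of the billiard map infinitely often.
-/

namespace Pool.Agent.Results.MP_009700_an.AllPolygons

open MeasureTheory Set Pool.Agent.H93.BL

/-- (1) Q1: for every polygon `P`, every measurable invariant set `X` and every side `i`: if `X`
contains the phase space of the side `i` up to a null set, then `X` is the whole phase space up to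
a null set.  (2) Every measurable invariant set is, up to a null set, the set of all phase points
with directions in a measurable set `W` which is invariant, up to a null set, under the reflections
in all sides.  (3) If the angle between some sides `i` and `j` is not a rational multiple of `π`,
then the billiard map is ergodic. -/
theorem result :
    (∀ (ι : Type) [Fintype ι] (P : Polygon ι) (X : ι → Set (ℝ × ℝ)),
      (∀ i, MeasurableSet (X i)) → P.Invariant X →
      ∀ i, P.liouville i (X i)ᶜ = 0 → ∀ j, P.liouville j (X j)ᶜ = 0) ∧
    (∀ (ι : Type) [Fintype ι] (P : Polygon ι) (X : ι → Set (ℝ × ℝ)),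
      (∀ i, MeasurableSet (X i)) → P.Invariant X →
      ∃ W : Set ℂ, MeasurableSet W ∧
        (∀ i, ∀ᵐ θ : ℝ, (Complex.exp ((θ : ℂ) * Complex.I) ∈ W ↔
          P.refl i (Complex.exp ((θ : ℂ) * Complex.I)) ∈ W)) ∧
        ∀ i, ∀ᵐ z ∂(P.liouville i), (z ∈ X i ↔ P.dir (i, z) ∈ W)) ∧
    (∀ (ι : Type) [Fintype ι] (P : Polygon ι) (i j : ι),
      (∀ m : ℕ, 0 < m → (P.u i / P.u j) ^ m ≠ 1) → ∀ X : ι → Set (ℝ × ℝ),
      (∀ i, MeasurableSet (X i)) → P.Invariant X →
      (∀ i, P.liouville i (X i) = 0) ∨ ∀ i, P.liouville i (X i)ᶜ = 0) := by
  refine ⟨?_, ?_, ?_⟩
  · intro ι _ P X hX hI i hi j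
    refine Pool.Agent.H75.ERG.Main.pDET ι P {i} (singleton_nonempty i) X hX hI ?_ j
    intro e he
    rw [mem_singleton_iff.1 he]
    exact hi
  · exact Pool.Agent.H75.ERG.Main.pRIG
  · exact Pool.Agent.H75.ERG.Main.pERG

end Pool.Agent.Results.MP_009700_an.AllPolygons
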